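import Mathlib
import Pool.Agent.H47R4.Clus2

set_option autoImplicit false

namespace Pool.Agent.Results.MP_1ea053_nt.Clusters

open Finset

/-- `A` is a solution all of whose gaps are at most `2`: a finite set of at least two positive
integers with reciprocal sum `1` in which consecutive elements differ by at most `2` -/
def Sol (A : Finset ℕ) : Prop := 2 ≤ A.card ∧ (∀ a ∈ A, 0 < a) ∧
  (∑ n ∈ A, (1 : ℚ) / (n : ℚ)) = 1 ∧
  ∀ x ∈ A, ∀ y ∈ A, x < y → (∀ z ∈ A, ¬ (x < z ∧ z < y)) → y - x ≤ 2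

/-- the largest denominators of the solutions all of whose gaps are at most `2` -/
def Bad : Set ℕ := {N | ∃ A : Finset ℕ, Sol A ∧ N ∈ A ∧ ∀ a ∈ A, a ≤ N}

/-- Let `Bad` be the set of the largest denominators of the solutions with all gaps at most `2`
(the conjecture says that it is empty). For every `C` there is `N₀` such that any two elements
`N₁ ≤ N₂ ≤ C N₁` of `Bad` with `N₁ ≥ N₀` satisfy `N₂ ≤ (9 / 8) N₁`. -/
theorem result : ∀ C : ℕ, ∃ N₀ : ℕ, ∀ N₁ ∈ Bad, ∀ N₂ ∈ Bad, N₀ ≤ N₁ → N₁ ≤ N₂ → N₂ ≤ C * N₁ →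
    8 * N₂ ≤ 9 * N₁ := by
  intro C
  obtain ⟨N0, h⟩ := Pool.Agent.H47R4.clusters C
  refine ⟨N0, ?_⟩
  rintro N₁ ⟨A₁, ⟨-, h1, h2, h3⟩, h4, h5⟩ N₂ ⟨A₂, ⟨-, k1, k2, k3⟩, k4, k5⟩ g1 g2 g3
  exact h A₁ A₂ N₁ N₂ ⟨h1, h2, h3, h4, h5⟩ ⟨k1, k2, k3, k4, k5⟩ g1 g2 g3

end Pool.Agent.Results.MP_1ea053_nt.Clusters
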