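import Mathlib
import Pool.Agent.H47R4.Apps

set_option autoImplicit false

namespace Pool.Agent.Results.MP_1ea053_nt.ExtremeRatio

open Finset

/-- `A` is a solution all of whose gaps are at most `2`: a finite set of at least two positive
integers with reciprocal sum `1` in which consecutive elements differ by at most `2` -/
def Sol (A : Finset ℕ) : Prop := 2 ≤ A.card ∧ (∀ a ∈ A, 0 < a) ∧
  (∑ n ∈ A, (1 : ℚ) / (n : ℚ)) = 1 ∧
  ∀ x ∈ A, ∀ y ∈ A, x < y → (∀ z ∈ A, ¬ (x < z ∧ z < y)) → y - x ≤ 2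

/-- For every `ε > 0`, all but finitely many solutions `A` with all gaps at most `2` satisfy, for all
elements `a` and `b` of `A`: `b < (3 + ε) a`, and the integers of `[a, b]` that are missing from `A`
have reciprocal sum at most `log 3 - 1 + ε`. -/
theorem result : ∀ ε : ℝ, 0 < ε → {A : Finset ℕ | Sol A ∧ ¬ ∀ a ∈ A, ∀ b ∈ A,
    (b : ℝ) < (3 + ε) * a ∧
    ∑ n ∈ Finset.Icc a b \ A, (1 : ℝ) / (n : ℝ) ≤ Real.log 3 - 1 + ε}.Finite := by
  intro ε hε
  obtain ⟨N0, hN0⟩ := Pool.Agent.H47R4.structure3 ε hε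
  apply ((Finset.range N0).powerset.finite_toSet).subset
  rintro A ⟨⟨hcard, hA, hsum, hgap⟩, hbad⟩
  rw [Finset.mem_coe, Finset.mem_powerset]
  intro a haA
  rw [Finset.mem_range]
  by_contra hcon
  push Not at hcon
  apply hbad
  have hne : A.Nonempty := ⟨a, haA⟩
  set N := A.max' hne with hN
  have hNA : N ∈ A := A.max'_mem hne
  have hmax : ∀ b ∈ A, b ≤ N := fun b hb => A.le_max' b hb
  intro x hx y hy
  obtain ⟨h1, h2⟩ := hN0 A N hA hsum hgap hNA hmax (hcon.trans (hmax a haA)) x hx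
  have hyN : (y : ℝ) ≤ N := by exact_mod_cast hmax y hy
  refine ⟨by linarith, le_trans ?_ h2⟩
  apply Finset.sum_le_sum_of_subset_of_nonneg
  · apply Finset.sdiff_subset_sdiff _ (Finset.Subset.refl A)
    exact Finset.Icc_subset_Icc le_rfl (hmax y hy)
  · intro _ _ _
    positivity

end Pool.Agent.Results.MP_1ea053_nt.ExtremeRatio
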