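import Mathlib
import Pool.Agent.H47R4.Dens

set_option autoImplicit false

namespace Pool.Agent.Results.MP_1ea053_nt.LogDensityZero

open Finset Filter Topology

/-- `A` is a solution all of whose gaps are at most `2`: a finite set of at least two positive
integers with reciprocal sum `1` in which consecutive elements differ by at most `2` -/
def Sol (A : Finset ℕ) : Prop := 2 ≤ A.card ∧ (∀ a ∈ A, 0 < a) ∧
  (∑ n ∈ A, (1 : ℚ) / (n : ℚ)) = 1 ∧
  ∀ x ∈ A, ∀ y ∈ A, x < y → (∀ z ∈ A, ¬ (x < z ∧ z < y)) → y - x ≤ 2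

/-- the largest denominators of the solutions all of whose gaps are at most `2` -/
def Bad : Set ℕ := {N | ∃ A : Finset ℕ, Sol A ∧ N ∈ A ∧ ∀ a ∈ A, a ≤ N}

theorem bad_isMax {N : ℕ} (h : N ∈ Bad) : Pool.Agent.H47R4.IsMax N := by
  obtain ⟨A, ⟨-, h1, h2, h3⟩, h4, h5⟩ := h
  exact ⟨1, le_rfl, A, h1, by rw [h2]; norm_num, h3, h4, h5⟩

open Classical in
/-- Let `Bad` be the set of the largest denominators of the solutions with all gaps at most `2`
(the conjecture says that it is empty).
(1) For every `C` there is `X₀` such that for `X ≥ X₀` the window `[X, C X]` does not contain twelve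
elements of `Bad` each of which is at least sixteen times the previous one.
(2) `Bad` has logarithmic density zero. -/
theorem result :
    (∀ C : ℝ, ∃ X₀ : ℝ, ∀ X : ℝ, X₀ ≤ X → ¬ ∃ f : ℕ → ℕ,
      (∀ s, s < 12 → f s ∈ Bad ∧ X ≤ f s ∧ (f s : ℝ) ≤ C * X) ∧
      ∀ s, s + 1 < 12 → 16 * f s ≤ f (s + 1)) ∧
    Tendsto (fun x : ℕ => (∑ N ∈ (Finset.Icc 1 x).filter (fun N => N ∈ Bad), (1 : ℝ) / N) /
      Real.log x) atTop (𝓝 0) := by
  refine ⟨fun C => ?_, ?_⟩
  · obtain ⟨X₀, -, h⟩ := Pool.Agent.H47R4.no_chain' C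
    refine ⟨X₀, fun X hX => ?_⟩
    rintro ⟨f, hf1, hf2⟩
    exact h X hX ⟨f, fun s hs => ⟨(hf1 s hs).2.1, (hf1 s hs).2.2, bad_isMax (hf1 s hs).1⟩, hf2⟩
  · refine squeeze_zero' ?_ ?_ Pool.Agent.H47R4.log_density
    · filter_upwards [eventually_ge_atTop 1] with x hx
      exact div_nonneg (Finset.sum_nonneg fun _ _ => by positivity)
        (Real.log_nonneg (by exact_mod_cast hx))
    · filter_upwards [eventually_ge_atTop 1] with x hx
      have hl : 0 ≤ Real.log (x : ℝ) := Real.log_nonneg (by exact_mod_cast hx)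
      apply div_le_div_of_nonneg_right _ hl
      apply Finset.sum_le_sum_of_subset_of_nonneg
      · intro N hN
        rw [Finset.mem_filter] at hN ⊢
        exact ⟨hN.1, bad_isMax hN.2⟩
      · intro _ _ _
        positivity

end Pool.Agent.Results.MP_1ea053_nt.LogDensityZero
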